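import Pool.Agent.Q45.ML.Real

/-! Leading coefficients as derivatives, with rate; rational multiples. -/

set_option autoImplicit false

namespace Pool.Agent.Q117.ML

open Filter Topology Set Asymptotics
open Pool.Agent.Q45.ML Pool.Agent.W187.UR

theorem leading_eq {x : ℂ} : ∀ {n : ℕ} {f : ℂ → ℂ}, AnalyticAt ℂ f x → analyticOrderAt f x = n →
    meromorphicTrailingCoeffAt f x = iteratedDeriv n f x / (n.factorial : ℂ)
  | 0, f, hf, hn => by
    have h0 : f x ≠ 0 := hf.analyticOrderAt_eq_zero.1 (by simpa using hn)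
    rw [hf.meromorphicTrailingCoeffAt_of_ne_zero h0]
    simp
  | n + 1, f, hf, hn => by
    obtain ⟨g, hg, hg0, hfg⟩ := (hf.analyticOrderAt_eq_natCast).1 hn
    have hfg' : f =ᶠ[𝓝 x] fun z => (z - x) ^ (n + 1) * g z := by
      filter_upwards [hfg] with z hz
      simpa using hz
    have h1 : meromorphicTrailingCoeffAt f x = g x := by
      refine hg.meromorphicTrailingCoeffAt_of_ne_zero_of_eq_nhdsNE (n := ((n + 1 : ℕ) : ℤ)) hg0 ?_
      filter_upwards [hfg'.filter_mono nhdsWithin_le_nhds] with z hz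
      rw [hz, zpow_natCast, smul_eq_mul]
    set h : ℂ → ℂ := fun z => ((n + 1 : ℕ) : ℂ) * g z + (z - x) * deriv g z with hh
    have hha : AnalyticAt ℂ h x := by
      have := hg.deriv
      fun_prop
    have hder : deriv f =ᶠ[𝓝 x] fun z => (z - x) ^ n * h z := by
      have h2 := hfg'.deriv
      refine h2.trans ?_
      filter_upwards [hg.eventually_analyticAt] with z hz
      have h3 : HasDerivAt (fun z : ℂ => (z - x) ^ (n + 1) * g z)
          (((n + 1 : ℕ) : ℂ) * (z - x) ^ n * 1 * g z + (z - x) ^ (n + 1) * deriv g z) z := by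
        have h4 := ((hasDerivAt_id z).sub_const x).pow (n + 1)
        simp only [id, Nat.add_sub_cancel] at h4
        exact h4.mul hz.differentiableAt.hasDerivAt
      rw [h3.deriv, hh]
      ring
    have hhx : h x = ((n + 1 : ℕ) : ℂ) * g x := by simp [hh]
    have hh0 : h x ≠ 0 := by
      rw [hhx]
      exact mul_ne_zero (by exact_mod_cast n.succ_ne_zero) hg0
    have hord : analyticOrderAt (deriv f) x = n := by
      refine (hf.deriv.analyticOrderAt_eq_natCast).2 ⟨h, hha, hh0, ?_⟩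
      filter_upwards [hder] with z hz
      simpa using hz
    have h5 := leading_eq hf.deriv hord
    have h6 : meromorphicTrailingCoeffAt (deriv f) x = h x := by
      refine hha.meromorphicTrailingCoeffAt_of_ne_zero_of_eq_nhdsNE (n := ((n : ℕ) : ℤ)) hh0 ?_
      filter_upwards [hder.filter_mono nhdsWithin_le_nhds] with z hz
      rw [hz, zpow_natCast, smul_eq_mul]
    rw [h6, hhx] at h5
    rw [h1, iteratedDeriv_succ', Nat.factorial_succ]
    have h7 : ((n + 1 : ℕ) : ℂ) ≠ 0 := by exact_mod_cast n.succ_ne_zero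
    have h8 : (n.factorial : ℂ) ≠ 0 := by exact_mod_cast n.factorial_ne_zero
    push_cast at h5 h7 ⊢
    field_simp at h5 ⊢
    linear_combination h5

variable {P : Type} {n : ℕ} {q : P → ℝ} {α : P → Fin n → ℂ} {θ d : ℝ}

/-- the leading derivative at a point of given order, with rate -/
theorem leading_rate (E : Eul n q α θ d) {F : ℂ → ℂ} {s₀ : ℝ} (hs₀ : s₀ < θ + d)
    (hmer : ∀ x : ℝ, s₀ ≤ x → x ≤ θ + d → MeromorphicAt F (x : ℂ))
    (hF : ∀ s : ℂ, θ + d < s.re → HasProd (fun v => ∏ j, (1 - α v j * (q v : ℂ) ^ (-s))⁻¹) (F s))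
    (hA : AnalyticAt ℂ F s₀) {k : ℕ} (hk : analyticOrderAt F (s₀ : ℂ) = k) {γ : ℝ}
    (hγ : Real.pi / 2 < γ) :
    iteratedDeriv k F s₀ ≠ 0 ∧
    (fun T : ℝ => Complex.exp (smooth q α s₀ γ T - k * Lam γ) * (T : ℂ) ^ k * (k.factorial : ℂ) -
      iteratedDeriv k F s₀) =O[atTop] (fun T : ℝ => 1 / T) := by
  obtain ⟨m, r, h1, h2, h3⟩ := E.lawC hs₀ hmer hF hγ
  have hm : m = (k : ℤ) := by
    rw [hA.meromorphicOrderAt_eq, hk] at h1
    have h5 : (((k : ℤ)) : WithTop ℤ) = (m : WithTop ℤ) := by simpa using h1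
    exact (WithTop.coe_inj.1 h5).symm
  subst hm
  have hfac : (k.factorial : ℂ) ≠ 0 := by exact_mod_cast k.factorial_ne_zero
  have h4 : Complex.exp r * (k.factorial : ℂ) = iteratedDeriv k F s₀ := by
    rw [h2, leading_eq hA hk]
    field_simp
  refine ⟨by rw [← h4]; exact mul_ne_zero (Complex.exp_ne_zero _) hfac, ?_⟩
  have h5 := (prod_rate h3).const_mul_left (Complex.exp (-(k * Lam γ)) * (k.factorial : ℂ))
  refine h5.congr' ?_ EventuallyEq.rfl
  filter_upwards with T
  have e1 : Complex.exp (smooth q α s₀ γ T - k * Lam γ) =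
      Complex.exp (-(k * Lam γ)) * Complex.exp (smooth q α s₀ γ T) := by
    rw [← Complex.exp_add]; congr 1; ring
  have e2 : Complex.exp (-(k * Lam γ)) * Complex.exp (k * Lam γ) = 1 := by
    rw [← Complex.exp_add]; simp
  rw [e1, ← h4]
  simp only [Int.cast_natCast, zpow_natCast]
  linear_combination (-Complex.exp r * (k.factorial : ℂ)) * e2

theorem closed_int : IsClosed (Set.range fun a : ℤ => (a : ℂ)) :=
  Complex.isClosedEmbedding_intCast.isClosed_range

/-- rational multiples are detected by the distance from the integers along one sequence -/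
theorem rat_iff {f : ℝ → ℂ} {V c : ℂ} (hc : c ≠ 0) (hf : Tendsto f atTop (𝓝 V)) :
    (∃ x : ℚ, V = x * c) ↔ ∃ D : ℕ, 0 < D ∧ ∃ t : ℕ → ℝ, Tendsto t atTop atTop ∧
      Tendsto (fun i => Metric.infDist ((D : ℂ) * (f (t i) / c)) (Set.range fun a : ℤ => (a : ℂ)))
        atTop (𝓝 0) := by
  have hlim : ∀ D : ℕ, Tendsto (fun T : ℝ => (D : ℂ) * (f T / c)) atTop (𝓝 (D * (V / c))) :=
    fun D => (hf.div_const c).const_mul _
  have hiff : ∀ D : ℕ, (∃ a : ℤ, (D : ℂ) * (V / c) = a) ↔ ∃ t : ℕ → ℝ, Tendsto t atTop atTop ∧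
      Tendsto (fun i => Metric.infDist ((D : ℂ) * (f (t i) / c)) (Set.range fun a : ℤ => (a : ℂ)))
        atTop (𝓝 0) := by
    intro D
    have h1 := closed_tfae closed_int (Set.range_nonempty _) (hlim D)
    have e : ((D : ℂ) * (V / c) ∈ Set.range fun a : ℤ => (a : ℂ)) ↔ ∃ a : ℤ, (D : ℂ) * (V / c) = a := by
      simp only [Set.mem_range, eq_comm]
    rw [e] at h1
    exact h1.out 0 2
  constructor
  · rintro ⟨x, hx⟩
    refine ⟨x.den, x.den_pos, (hiff _).1 ⟨x.num, ?_⟩⟩
    rw [hx, mul_div_cancel_right₀ _ hc]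
    have : (x.den : ℚ) * x = x.num := by
      rw [mul_comm]; exact Rat.mul_den_eq_num x
    exact_mod_cast this
  · rintro ⟨D, hD, ht⟩
    obtain ⟨a, ha⟩ := (hiff D).2 ht
    refine ⟨a / D, ?_⟩
    have hDc : (D : ℂ) ≠ 0 := by exact_mod_cast hD.ne'
    push_cast
    field_simp at ha ⊢
    linear_combination ha

end Pool.Agent.Q117.ML
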