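import Pool.Agent.Q45.ML.Real

/-! The order of vanishing at an interior point from the imaginary parts (arguments) at two real points. -/

set_option autoImplicit false

namespace Pool.Agent.Q117.ML

open Filter Topology Set Asymptotics
open Pool.Agent.Q45.ML Pool.Agent.W187.UR

variable {P : Type} {n : ℕ} {q : P → ℝ} {α : P → Fin n → ℂ} {θ d : ℝ}

theorem order_ne_top (E : Eul n q α θ d) {F : ℂ → ℂ} {x : ℝ} (hx : x < θ + d)
    (hA : ∀ y : ℝ, x ≤ y → AnalyticAt ℂ F (y : ℂ))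
    (hF : ∀ s : ℂ, θ + d < s.re → HasProd (fun v => ∏ j, (1 - α v j * (q v : ℂ) ^ (-s))⁻¹) (F s)) :
    analyticOrderAt F (x : ℂ) ≠ ⊤ := by
  have hγ : Real.pi / 2 < Real.pi := by linarith [Real.pi_pos]
  obtain ⟨m, r, h1, h2, h3⟩ := E.lawC hx (fun y hy _ => (hA y hy).meromorphicAt) hF hγ
  intro h
  rw [(hA x le_rfl).meromorphicOrderAt_eq, h] at h1
  simp at h1

theorem ne_zero_right (E : Eul n q α θ d) {F : ℂ → ℂ} {s : ℂ} (hs : θ + d < s.re)
    (hF : ∀ s : ℂ, θ + d < s.re → HasProd (fun v => ∏ j, (1 - α v j * (q v : ℂ) ^ (-s))⁻¹) (F s)) :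
    F s ≠ 0 := by
  rw [(hF s hs).unique (E.hasProd hs)]
  exact Complex.exp_ne_zero _

/-- the real zeros to the right of a point are finite in number -/
theorem finite_zeros (E : Eul n q α θ d) {F : ℂ → ℂ} {σ₁ : ℝ}
    (hA : ∀ x : ℝ, σ₁ ≤ x → AnalyticAt ℂ F (x : ℂ))
    (hF : ∀ s : ℂ, θ + d < s.re → HasProd (fun v => ∏ j, (1 - α v j * (q v : ℂ) ^ (-s))⁻¹) (F s)) :
    {x : ℝ | σ₁ ≤ x ∧ F (x : ℂ) = 0}.Finite := by
  by_contra hinf
  have hsub : {x : ℝ | σ₁ ≤ x ∧ F (x : ℂ) = 0} ⊆ Icc σ₁ (θ + d) := by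
    rintro x ⟨h1, h2⟩
    refine ⟨h1, ?_⟩
    by_contra h3
    push Not at h3
    exact ne_zero_right E (s := (x : ℂ)) (by simpa using h3) hF h2
  obtain ⟨x, hx, hacc⟩ := Set.Infinite.exists_accPt_of_subset_isCompact hinf isCompact_Icc hsub
  have hacc' : ∃ᶠ y in 𝓝[≠] x, F ((y : ℝ) : ℂ) = 0 := by
    have := accPt_iff_frequently_nhdsNE.1 hacc
    exact this.mono fun y hy => hy.2
  have hfreq : ∃ᶠ z in 𝓝[≠] (x : ℂ), F z = 0 := by
    have ht : Tendsto (fun y : ℝ => (y : ℂ)) (𝓝[≠] x) (𝓝[≠] (x : ℂ)) := by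
      refine tendsto_nhdsWithin_iff.2 ⟨?_, ?_⟩
      · exact (Complex.continuous_ofReal.tendsto x).mono_left nhdsWithin_le_nhds
      · filter_upwards [self_mem_nhdsWithin] with y hy
        simpa using hy
    exact ht.frequently hacc'
  have hloc : ∀ᶠ z in 𝓝 (x : ℂ), F z = 0 :=
    ((hA x hx.1).frequently_zero_iff_eventually_zero).1 hfreq
  -- move to a point left of `θ + d`
  obtain ⟨y, hy1, hy2, hy3⟩ : ∃ y : ℝ, σ₁ ≤ y ∧ (y < θ + d ∨ y = x) ∧ ∀ᶠ z in 𝓝 (y : ℂ), F z = 0 :=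
    ⟨x, hx.1, Or.inr rfl, hloc⟩
  have htop : analyticOrderAt F (x : ℂ) = ⊤ := analyticOrderAt_eq_top.2 hloc
  rcases hx.2.lt_or_eq with h | h
  · exact order_ne_top E h (fun y hy => hA y (hx.1.trans hy)) hF htop
  · -- `x = θ + d`: points slightly to the right
    have ht : Tendsto (fun k : ℕ => ((x + 1 / ((k : ℝ) + 1) : ℝ) : ℂ)) atTop (𝓝 (x : ℂ)) := by
      have h1 : Tendsto (fun k : ℕ => x + 1 / ((k : ℝ) + 1)) atTop (𝓝 (x + 0)) :=
        tendsto_const_nhds.add tendsto_one_div_add_atTop_nhds_zero_nat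
      rw [add_zero] at h1
      exact (Complex.continuous_ofReal.tendsto x).comp h1
    obtain ⟨k, hk⟩ := (ht.eventually hloc).exists
    refine ne_zero_right E (s := ((x + 1 / ((k : ℝ) + 1) : ℝ) : ℂ)) ?_ hF hk
    rw [Complex.ofReal_re, h]
    have : (0 : ℝ) < 1 / ((k : ℝ) + 1) := by positivity
    linarith

theorem excess_sub (E : Eul n q α θ d) {F : ℂ → ℂ} {c σ₁ σ₂ : ℝ} (h1 : σ₁ < c) (h2 : c < σ₂)
    (hA : ∀ x : ℝ, σ₁ ≤ x → AnalyticAt ℂ F (x : ℂ))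
    (hF : ∀ s : ℂ, θ + d < s.re → HasProd (fun v => ∏ j, (1 - α v j * (q v : ℂ) ^ (-s))⁻¹) (F s))
    (hne : ∀ x : ℝ, σ₁ ≤ x → x ≤ σ₂ → x ≠ c → F x ≠ 0) :
    excess F σ₁ = analyticOrderNatAt F (c : ℂ) + excess F σ₂ := by
  have hfin := finite_zeros E hA hF
  set g : ℝ → ℤ := fun σ => (meromorphicOrderAt F (σ : ℂ)).untop₀ with hg
  have hg0 : ∀ x : ℝ, σ₁ ≤ x → F x ≠ 0 → g x = 0 := by
    intro x hx h
    have h3 := (hA x hx).meromorphicOrderAt_eq
    rw [(hA x hx).analyticOrderAt_eq_zero.2 h] at h3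
    simp [hg, h3]
  have hsplit : Ioi σ₁ = Ioc σ₁ σ₂ ∪ Ioi σ₂ := (Ioc_union_Ioi_eq_Ioi (h1.trans h2).le).symm
  have hdisj : Disjoint (Ioc σ₁ σ₂) (Ioi σ₂) := by
    rw [Set.disjoint_left]
    rintro x ⟨_, hx⟩ hx'
    exact absurd hx' (not_lt.2 hx)
  have hf1 : (Ioc σ₁ σ₂ ∩ Function.support g).Finite := by
    refine hfin.subset ?_
    rintro x ⟨hx, hx'⟩
    refine ⟨hx.1.le, ?_⟩
    by_contra h
    exact hx' (hg0 x hx.1.le h)
  have hf2 : (Ioi σ₂ ∩ Function.support g).Finite := by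
    refine hfin.subset ?_
    rintro x ⟨hx, hx'⟩
    have hx1 : σ₁ ≤ x := (h1.trans h2).le.trans (le_of_lt hx)
    refine ⟨hx1, ?_⟩
    by_contra h
    exact hx' (hg0 x hx1 h)
  have hsum : (∑ᶠ σ ∈ Ioi σ₁, g σ) = (∑ᶠ σ ∈ Ioc σ₁ σ₂, g σ) + ∑ᶠ σ ∈ Ioi σ₂, g σ := by
    rw [hsplit]
    exact finsum_mem_union' hdisj hf1 hf2
  have hone : (∑ᶠ σ ∈ Ioc σ₁ σ₂, g σ) = g c := by
    rw [← finsum_mem_singleton (f := g) (a := c)]
    refine finsum_mem_inter_support_eq g _ _ ?_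
    ext x
    constructor
    · rintro ⟨hx, hx'⟩
      refine ⟨?_, hx'⟩
      by_contra h
      exact hx' (hg0 x hx.1.le (hne x hx.1.le hx.2 h))
    · rintro ⟨hx, hx'⟩
      rw [mem_singleton_iff] at hx
      subst hx
      exact ⟨⟨h1, h2.le⟩, hx'⟩
  have hc : g c = analyticOrderNatAt F (c : ℂ) := by
    have h3 := (hA c h1.le).meromorphicOrderAt_eq
    by_cases htop : analyticOrderAt F (c : ℂ) = ⊤
    · -- impossible, but the value is also right
      simp [hg, h3, htop, analyticOrderNatAt]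
    · obtain ⟨k, hk⟩ := ENat.ne_top_iff_exists.1 htop
      simp only [hg, h3, ← hk, analyticOrderNatAt]
      simp
  show (∑ᶠ σ ∈ Ioi σ₁, g σ) = _ + ∑ᶠ σ ∈ Ioi σ₂, g σ
  rw [hsum, hone, hc]

/-- at a real point where `F` does not vanish: the smoothed sum converges to the branch of `log F` -/
theorem tendsto_log (E : Eul n q α θ d) (hr : RealSums α) {F : ℂ → ℂ} {σ : ℝ} (hσ : σ < θ + d)
    (hA : ∀ x : ℝ, σ ≤ x → AnalyticAt ℂ F (x : ℂ))
    (hF : ∀ s : ℂ, θ + d < s.re → HasProd (fun v => ∏ j, (1 - α v j * (q v : ℂ) ^ (-s))⁻¹) (F s))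
    (hne : F σ ≠ 0) {γ : ℝ} (hγ : Real.pi / 2 < γ) :
    ∃ r : ℂ, r.im = -Real.pi * excess F σ ∧ Tendsto (fun T => smooth q α σ γ T) atTop (𝓝 r) ∧
      Complex.exp r = F σ := by
  obtain ⟨m, r, h1, h2, h3, h4⟩ := E.law hr hσ (fun y hy _ => (hA y hy).meromorphicAt) hF hγ
  have hm : m = 0 := by
    rw [(hA σ le_rfl).meromorphicOrderAt_eq, (hA σ le_rfl).analyticOrderAt_eq_zero.2 hne] at h1
    have h5 : ((0 : ℤ) : WithTop ℤ) = (m : WithTop ℤ) := by simpa using h1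
    exact (WithTop.coe_inj.1 h5).symm
  subst hm
  refine ⟨r, h3, tendsto_of_rate (by simpa using h4), ?_⟩
  rw [h2, (hA σ le_rfl).meromorphicTrailingCoeffAt_of_ne_zero hne]

/-- **order of vanishing and its parity from two real points** -/
theorem order_two_points (E : Eul n q α θ d) (hr : RealSums α) {F : ℂ → ℂ} {c σ₁ σ₂ : ℝ}
    (h1 : σ₁ < c) (h2 : c < σ₂) (h3 : σ₂ < θ + d)
    (hA : ∀ x : ℝ, σ₁ ≤ x → AnalyticAt ℂ F (x : ℂ))
    (hF : ∀ s : ℂ, θ + d < s.re → HasProd (fun v => ∏ j, (1 - α v j * (q v : ℂ) ^ (-s))⁻¹) (F s))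
    (hne : ∀ x : ℝ, σ₁ ≤ x → x ≤ σ₂ → x ≠ c → F x ≠ 0) {γ : ℝ} (hγ : Real.pi / 2 < γ) :
    Tendsto (fun T => ((smooth q α σ₂ γ T).im - (smooth q α σ₁ γ T).im) / Real.pi) atTop
      (𝓝 (analyticOrderNatAt F (c : ℂ))) ∧
    ∀ N : ℕ, List.TFAE [Even (analyticOrderNatAt F (c : ℂ) + N),
      ∀ᶠ T in atTop, 0 < (-1) ^ N *
        (Complex.exp (smooth q α σ₁ γ T) * Complex.exp (smooth q α σ₂ γ T)).re,
      ∃ᶠ T in atTop, 0 < (-1) ^ N *
        (Complex.exp (smooth q α σ₁ γ T) * Complex.exp (smooth q α σ₂ γ T)).re] := by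
  have h12 : σ₁ < σ₂ := h1.trans h2
  obtain ⟨r₁, hi₁, ht₁, he₁⟩ := tendsto_log E hr (h12.trans h3) hA hF (hne σ₁ le_rfl h12.le h1.ne) hγ
  obtain ⟨r₂, hi₂, ht₂, he₂⟩ := tendsto_log E hr h3 (fun x hx => hA x (h12.le.trans hx)) hF
    (hne σ₂ h12.le le_rfl h2.ne') hγ
  have hex := excess_sub E h1 h2 hA hF hne
  set k := analyticOrderNatAt F (c : ℂ) with hk
  constructor
  · have h5 : Tendsto (fun T => ((smooth q α σ₂ γ T).im - (smooth q α σ₁ γ T).im) / Real.pi) atTop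
        (𝓝 ((r₂.im - r₁.im) / Real.pi)) :=
      (((Complex.continuous_im.tendsto _).comp ht₂).sub
        ((Complex.continuous_im.tendsto _).comp ht₁)).div_const _
    have h6 : (r₂.im - r₁.im) / Real.pi = (k : ℝ) := by
      rw [hi₁, hi₂, hex]
      push_cast
      field_simp
      ring
    rwa [h6] at h5
  · intro N
    have hexp : ∀ (e : ℤ) (r : ℂ), r.im = -Real.pi * e →
        Complex.exp r = (((-1 : ℝ) ^ e * Real.exp r.re : ℝ) : ℂ) := by
      intro e r hr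
      have e1 : r = (r.re : ℂ) + (e : ℂ) * (-(Real.pi * Complex.I)) := by
        apply Complex.ext
        · simp
        · rw [hr]
          simp
          ring
      have e2 : Complex.exp (-(Real.pi * Complex.I)) = -1 := by
        rw [Complex.exp_neg, Complex.exp_pi_mul_I]
        norm_num
      conv_lhs => rw [e1]
      rw [Complex.exp_add, Complex.exp_int_mul, e2]
      push_cast
      ring
    have hlim : Tendsto (fun T => (-1 : ℝ) ^ N *
        (Complex.exp (smooth q α σ₁ γ T) * Complex.exp (smooth q α σ₂ γ T)).re) atTop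
        (𝓝 ((-1 : ℝ) ^ N * (Complex.exp r₁ * Complex.exp r₂).re)) := by
      refine Tendsto.const_mul _ ((Complex.continuous_re.tendsto _).comp ?_)
      exact ((Complex.continuous_exp.tendsto _).comp ht₁).mul
        ((Complex.continuous_exp.tendsto _).comp ht₂)
    have hval : (-1 : ℝ) ^ N * (Complex.exp r₁ * Complex.exp r₂).re =
        (-1 : ℝ) ^ (k + N) * (Real.exp r₁.re * Real.exp r₂.re) := by
      rw [hexp _ r₁ hi₁, hexp _ r₂ hi₂, ← Complex.ofReal_mul, Complex.ofReal_re, hex]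
      have e3 : (-1 : ℝ) ^ ((k : ℤ) + excess F σ₂) * (-1 : ℝ) ^ (excess F σ₂) = (-1 : ℝ) ^ k := by
        rw [← zpow_add₀ (by norm_num)]
        have : (k : ℤ) + excess F σ₂ + excess F σ₂ = (k : ℤ) + 2 * excess F σ₂ := by ring
        rw [this, zpow_add₀ (by norm_num), zpow_natCast, zpow_mul]
        norm_num
      calc (-1 : ℝ) ^ N * ((-1 : ℝ) ^ ((k : ℤ) + excess F σ₂) * Real.exp r₁.re *
            ((-1 : ℝ) ^ (excess F σ₂) * Real.exp r₂.re))
          = (-1 : ℝ) ^ N * ((-1 : ℝ) ^ ((k : ℤ) + excess F σ₂) * (-1 : ℝ) ^ (excess F σ₂)) *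
            (Real.exp r₁.re * Real.exp r₂.re) := by ring
        _ = _ := by rw [e3, ← pow_add, add_comm N k]
    rw [hval] at hlim
    have hpos : 0 < Real.exp r₁.re * Real.exp r₂.re := mul_pos (Real.exp_pos _) (Real.exp_pos _)
    tfae_have 1 → 2 := by
      intro h
      rw [h.neg_one_pow, one_mul] at hlim
      exact hlim.eventually_const_lt hpos
    tfae_have 2 → 3 := fun h => h.frequently
    tfae_have 3 → 1 := by
      intro h
      by_contra hodd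
      rw [Nat.not_even_iff_odd] at hodd
      rw [hodd.neg_one_pow] at hlim
      have h7 : ∀ᶠ T in atTop, (-1 : ℝ) ^ N *
          (Complex.exp (smooth q α σ₁ γ T) * Complex.exp (smooth q α σ₂ γ T)).re < 0 :=
        hlim.eventually_lt_const (by linarith)
      obtain ⟨T, h8, h9⟩ := (h.and_eventually h7).exists
      linarith
    tfae_finish

/-- two such points exist -/
theorem exists_points (E : Eul n q α θ d) {F : ℂ → ℂ} {c : ℝ} (hc : c < θ + d)
    (hA : ∀ x : ℝ, c ≤ x → AnalyticAt ℂ F (x : ℂ))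
    (hF : ∀ s : ℂ, θ + d < s.re → HasProd (fun v => ∏ j, (1 - α v j * (q v : ℂ) ^ (-s))⁻¹) (F s)) :
    ∃ δ : ℝ, 0 < δ ∧ (∀ x : ℝ, c - δ ≤ x → AnalyticAt ℂ F (x : ℂ)) ∧
      ∀ x : ℝ, c - δ ≤ x → x ≤ c + δ → x ≠ c → F x ≠ 0 := by
  have htop := order_ne_top E hc hA hF
  have h1 : ∀ᶠ z in 𝓝[≠] (c : ℂ), F z ≠ 0 :=
    ((hA c le_rfl).eventually_eq_zero_or_eventually_ne_zero).resolve_left fun h =>
      htop (analyticOrderAt_eq_top.2 h)
  have h2 : ∀ᶠ z in 𝓝 (c : ℂ), AnalyticAt ℂ F z := (hA c le_rfl).eventually_analyticAt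
  obtain ⟨ε, hε, h3⟩ := Metric.eventually_nhds_iff.1 ((eventually_nhdsWithin_iff.1 h1).and h2)
  refine ⟨ε / 2, by positivity, fun x hx => ?_, fun x hx hx' hxc => ?_⟩
  · rcases le_or_gt c x with h | h
    · exact hA x h
    · refine (h3 (y := (x : ℂ)) ?_).2
      rw [Complex.dist_eq, ← Complex.ofReal_sub, Complex.norm_real, Real.norm_eq_abs, abs_lt]
      constructor <;> linarith
  · refine (h3 (y := (x : ℂ)) ?_).1 (by simpa using hxc)
    rw [Complex.dist_eq, ← Complex.ofReal_sub, Complex.norm_real, Real.norm_eq_abs, abs_lt]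
    constructor <;> linarith

end Pool.Agent.Q117.ML
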